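import Mathlib
import Pool.Agent.MP_b834b3_ag.h.Final

/-! Codimension two cycles on the square of the generic K3 surface of genus eighteen. -/

namespace Pool.Agent.Results.MP_b834b3_ag.GenusEighteen

open AlgebraicGeometry CategoryTheory Limits Pool.Agent.MP_b834b3_ag Pool.Agent.MP_fd6584_ag.Pj

theorem result :
    (∃ (X : Scheme.{0}) (s : X ⟶ Spec (CommRingCat.of G18.K)), IsProjective s ∧ G18.IsGeneric s) ∧
    ∀ (X : Scheme.{0}) (s : X ⟶ Spec (CommRingCat.of G18.K)), G18.IsGeneric s →
      rankCH2 (pullback s s) ≤ 4 :=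
  ⟨G18.exists_model', fun _ _ hs => G18.rank_le_four hs⟩

end Pool.Agent.Results.MP_b834b3_ag.GenusEighteen
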