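import Mathlib
import Pool.Agent.MP_b834b3_ag.Final
import Pool.Agent.MP_b834b3_ag.Rank

/-! Codimension two cycles on the square of the generic K3 surface with a genus one fibration and
a multisection of degree at most three. -/

namespace Pool.Agent.Results.MP_b834b3_ag.GenusOneLattices

open AlgebraicGeometry CategoryTheory Limits Pool.Agent.MP_b834b3_ag Pool.Agent.MP_fd6584_ag.Pj

theorem result (a b w : ℕ)
    (h : (a, b, w) ∈ [(4, 6, 2), (0, 2, 2), (1, 3, 2), (0, 1, 1), (0, 0, 1), (1, 1, 1)]) :
    (∃ (X : Scheme.{0}) (s : X ⟶ Spec (CommRingCat.of (Par a b w))),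
      IsProjective s ∧ IsGeneric a b w s) ∧
    ∀ (X : Scheme.{0}) (s : X ⟶ Spec (CommRingCat.of (Par a b w))), IsGeneric a b w s →
      rankCH2 (pullback s s) ≤ 7 :=
  ⟨exists_generic (by
    simp only [List.mem_cons, Prod.mk.injEq, List.not_mem_nil, or_false] at h
    omega), fun _ _ hs => rank_le_seven h hs⟩

end Pool.Agent.Results.MP_b834b3_ag.GenusOneLattices
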